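import Pool.Agent.TH915.SL.Fin

/-!
# Primes among `⌊x n!⌋ ± 1` and `⌊x P_n⌋ ± 1` for almost every amplitude `x`

`P_n` is the product of the first `n` primes. At `x = 1` these are the four sequences of the problem.
For almost every `x > 0` each of the four sequences contains infinitely many primes; the number of
`n ≤ N` with a prime value is `log log N` up to an error of square root size. The same holds along
every set `S` of indices with divergent sum of `1 / (n log n)`, with the main term the sum of
`1 / log n!` (or `1 / log P_n`) over `S`; if the sum of `1 / (n log n)` over `S` converges there are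
only finitely many prime values with index in `S`, for almost every `x > 0`.

Proof: means and correlations of the events by the prime number theorem with the classical error
term, for pairs `m ^ 4 ≤ n`, and by the Brun-Titchmarsh inequality for the other pairs; a chaining
argument (Gál-Koksma).
-/

set_option autoImplicit false

namespace Pool.Agent.Results.MP_65de64_nt.AmplitudeLaw

open Filter Topology MeasureTheory

/-- `n!` for `false`, the product of the first `n` primes for `true` -/
noncomputable def A : Bool → ℕ → ℕ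
  | false, n => n.factorial
  | true, n => ∏ i ∈ Finset.range n, Nat.nth Nat.Prime i

/-- `k + 1` for `false`, `k - 1` for `true` -/
def shift : Bool → ℕ → ℕ
  | false, k => k + 1
  | true, k => k - 1

/-- the integer `⌊x A n⌋ ± 1` -/
noncomputable def W (a e : Bool) (x : ℝ) (n : ℕ) : ℕ := shift e ⌊(A a n : ℝ) * x⌋₊

open Classical in
/-- the number of `n ≤ N` in `S` with `W a e x n` prime -/
noncomputable def M (a e : Bool) (S : Set ℕ) (x : ℝ) (N : ℕ) : ℕ :=
  ((Finset.range (N + 1)).filter (fun n => n ∈ S ∧ (W a e x n).Prime)).card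

open Classical in
/-- the expected number -/
noncomputable def V (a : Bool) (S : Set ℕ) (N : ℕ) : ℝ :=
  ∑ n ∈ (Finset.range (N + 1)).filter (fun n => n ∈ S), 1 / Real.log (A a n)

/-- the error term -/
noncomputable def G (v : ℝ) : ℝ := Real.sqrt (1 + v) * (1 + Real.log (1 + v)) ^ 2

lemma sh (e : Bool) : Pool.Agent.TH915.SL.Sh (shift e) := by
  cases e
  · exact Or.inl fun _ => rfl
  · exact Or.inr fun _ => rfl

lemma gr (a : Bool) : Pool.Agent.TH915.SL.Gr (fun n => (A a n : ℝ)) := by
  cases a
  · exact Pool.Agent.TH915.SL.gr_fact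
  · exact Pool.Agent.TH915.SL.gr_prim

lemma sums (a : Bool) : ∃ C : ℝ, 0 < C ∧ ∀ N : ℕ, 3 ≤ N →
    |∑ n ∈ Finset.range (N + 1), 1 / Real.log (A a n : ℝ) - Real.log (Real.log N)| ≤ C := by
  cases a
  · exact Pool.Agent.TH915.SL.fact_sum
  · exact Pool.Agent.TH915.SL.prim_sum

open Classical in
/-- **Primes of factorial and primorial type for almost every amplitude.** -/
theorem result :
    -- at `x = 1`: the four sequences of the problem
    (∀ n : ℕ, W false false 1 n = n.factorial + 1 ∧ W false true 1 n = n.factorial - 1 ∧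
      W true false 1 n = (∏ i ∈ Finset.range n, Nat.nth Nat.Prime i) + 1 ∧
      W true true 1 n = (∏ i ∈ Finset.range n, Nat.nth Nat.Prime i) - 1) ∧
    -- the law for all indices
    (∀ a e : Bool, ∀ᵐ x : ℝ, 0 < x → ∃ B : ℝ, ∀ N : ℕ, 3 ≤ N →
      |(M a e Set.univ x N : ℝ) - Real.log (Real.log N)| ≤ B * G (Real.log (Real.log N))) ∧
    -- the law along a set of indices
    (∀ (a e : Bool) (S : Set ℕ),
      (¬ Summable fun n : ℕ => if n ∈ S then 1 / ((n : ℝ) * Real.log n) else 0) →
      ∀ᵐ x : ℝ, 0 < x → ∃ B : ℝ, ∀ N : ℕ, |(M a e S x N : ℝ) - V a S N| ≤ B * G (V a S N)) ∧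
    -- the convergence case
    (∀ (a e : Bool) (S : Set ℕ),
      (Summable fun n : ℕ => if n ∈ S then 1 / ((n : ℝ) * Real.log n) else 0) →
      ∀ᵐ x : ℝ, 0 < x → {n : ℕ | n ∈ S ∧ (W a e x n).Prime}.Finite) := by
  refine ⟨fun n => ?_, fun a e => ?_, fun a e S hS => ?_, fun a e S hS => ?_⟩
  · simp only [W, A, shift, mul_one, Nat.floor_natCast, and_self]
  · filter_upwards [Pool.Agent.TH915.SL.main_law (sh e) (gr a) (sums a)] with x hx hx0
    obtain ⟨B, hB⟩ := hx hx0
    refine ⟨B, fun N hN => ?_⟩
    have h1 := hB N hN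
    have e1 : (M a e Set.univ x N : ℝ) =
        (((Finset.range (N + 1)).filter
          (fun n => (shift e ⌊(A a n : ℝ) * x⌋₊).Prime)).card : ℝ) := by
      unfold M W
      congr 2
      ext n
      simp
    rw [e1]
    exact h1
  · filter_upwards [Pool.Agent.TH915.SL.set_law (sh e) (gr a) S hS] with x hx hx0
    obtain ⟨B, hB⟩ := hx hx0
    exact ⟨B, fun N => hB (N + 1)⟩
  · exact Pool.Agent.TH915.SL.set_fin (sh e) (gr a) S hS

end Pool.Agent.Results.MP_65de64_nt.AmplitudeLaw
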